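import Pool.Agent.P.MP_b67b84_gt.Net
import Pool.Agent.P.MP_b67b84_gt.IrrD
import Pool.Agent.P.MP_b67b84_gt.IrrDefs

namespace Pool.Agent.Results.MP_b67b84_gt.IrreducibleNets

open Pool.Agent.P.MP_b67b84_gt

/-- For every `N` there is an irreducible geodesic net in the Euclidean plane with exactly four
unbalanced vertices and at least `N` balanced vertices. -/
theorem result : ∀ N : ℕ, ∃ (U B : Finset (EuclideanSpace ℝ (Fin 2)))
    (G : SimpleGraph (EuclideanSpace ℝ (Fin 2))),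
    IsGeodesicNet U B G ∧ IsIrreducible U B G ∧ U.card = 4 ∧ N ≤ B.card := by
  intro N
  obtain ⟨U, B, G, h1, h2, h3, h4⟩ := Irr.irreducible_of_unbounded (fun N => by
    obtain ⟨r, a, b, ζ, h⟩ := exists_good (N + 1)
    obtain ⟨U, B, G, h1, h2, h3⟩ := net_of_good h (by omega)
    exact ⟨U, B, G, h1, h2, by omega⟩) N
  exact ⟨U, B, G, h1, ⟨fun B' G' hG h' => Irr.subnet_eq h1 (by omega) h4 hG h', h4⟩, h2, h3⟩

end Pool.Agent.Results.MP_b67b84_gt.IrreducibleNets
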